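import Pool.Agent.Helper70.EH.Goals4

/-! # Project EH, part 4, packet PT -/

set_option autoImplicit false

namespace Pool.Agent.Helper46.EH.PT

open Pool.Agent.Helper70.KN Pool.Agent.Helper70.EQ Pool.Agent.Helper70.EH

theorem t (hLB : Pool.Agent.Helper70.EQ.G_LB) (hUT : Pool.Agent.Helper70.EH.G_UT)
    (hML : Pool.Agent.Helper70.EQ.G_ML) : Pool.Agent.Helper70.EH.G_PT := by
  intro N r t k V c hk hN ht hV hc
  have hc0 : (0 : ℝ) < c := by linarith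
  have key : ∀ J ∈ Finset.univ.filter (fun J : Finset (Fin r) => J.Nonempty),
      (N.factorial : ℝ) * ((-1) ^ (r - J.card) * genus (mult (∑ i ∈ J, k i) V)) ≤
      (-1) ^ (r - J.card) * (∑ i ∈ J, (k i : ℝ)) ^ N * T V 0 -
        (((N : ℝ) + 1 + t) * ((-1) ^ (r - J.card) * (∑ i ∈ J, (k i : ℝ)) ^ (N - 1)) -
          ((N : ℝ) + 1 - t) * (∑ i ∈ J, (k i : ℝ)) ^ (N - 1)) / 4 * T V 1 +
        (t : ℝ) ^ 2 * ((N : ℝ) - 1) / (16 * c) *
          ((-1) ^ (r - J.card) * (∑ i ∈ J, (k i : ℝ)) ^ (N - 2) + (∑ i ∈ J, (k i : ℝ)) ^ (N - 2)) *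
            T V 1 := by
    intro J hJ
    have hJn : J.Nonempty := (Finset.mem_filter.mp hJ).2
    obtain ⟨i0, hi0⟩ := hJn
    have hj1 : 1 ≤ ∑ i ∈ J, k i :=
      (hk i0).trans (Finset.single_le_sum (f := k) (fun i _ => Nat.zero_le _) hi0)
    have hcast : (∑ i ∈ J, (k i : ℝ)) = ((∑ i ∈ J, k i : ℕ) : ℝ) := by push_cast; rfl
    rw [hcast]
    generalize (∑ i ∈ J, k i) = j at hj1 ⊢
    have hjr : (1 : ℝ) ≤ j := by exact_mod_cast hj1
    obtain ⟨hC, hTh, hTk⟩ := hML N V j hj1 hV.1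
    have t0 := hTk 0 (by omega)
    have t1 := hTk 1 (by omega)
    rw [Nat.sub_zero] at t0
    have lb := hLB N (by omega) (mult j V) hC
    have ub := hUT N t (mult j V) (j * c) hN ht (hTh c hV) (by nlinarith)
    rw [t0, t1] at lb ub
    have hp : (j : ℝ) ^ (N - 1) = j * (j : ℝ) ^ (N - 2) := by
      rw [← pow_succ']
      congr 1
      omega
    have hq : (t : ℝ) ^ 2 * ((N : ℝ) - 1) / (8 * (j * c)) * ((j : ℝ) ^ (N - 1) * T V 1) =
        (t : ℝ) ^ 2 * ((N : ℝ) - 1) / (8 * c) * ((j : ℝ) ^ (N - 2) * T V 1) := by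
      rw [hp]
      field_simp
    rw [hq] at ub
    rcases Nat.even_or_odd (r - J.card) with h | h
    · rw [h.neg_one_pow]
      have e : 1 * (j : ℝ) ^ N * T V 0 -
          (((N : ℝ) + 1 + t) * (1 * (j : ℝ) ^ (N - 1)) - ((N : ℝ) + 1 - t) * (j : ℝ) ^ (N - 1)) / 4 *
            T V 1 + (t : ℝ) ^ 2 * ((N : ℝ) - 1) / (16 * c) *
              (1 * (j : ℝ) ^ (N - 2) + (j : ℝ) ^ (N - 2)) * T V 1 =
          (j : ℝ) ^ N * T V 0 - (t : ℝ) / 2 * ((j : ℝ) ^ (N - 1) * T V 1) +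
            (t : ℝ) ^ 2 * ((N : ℝ) - 1) / (8 * c) * ((j : ℝ) ^ (N - 2) * T V 1) := by
        field_simp
        ring
      rw [e, one_mul]
      exact ub
    · rw [h.neg_one_pow]
      have e : -1 * (j : ℝ) ^ N * T V 0 -
          (((N : ℝ) + 1 + t) * (-1 * (j : ℝ) ^ (N - 1)) - ((N : ℝ) + 1 - t) * (j : ℝ) ^ (N - 1)) / 4 *
            T V 1 + (t : ℝ) ^ 2 * ((N : ℝ) - 1) / (16 * c) *
              (-1 * (j : ℝ) ^ (N - 2) + (j : ℝ) ^ (N - 2)) * T V 1 =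
          -((j : ℝ) ^ N * T V 0 - ((N : ℝ) + 1) / 2 * ((j : ℝ) ^ (N - 1) * T V 1)) := by
        ring
      rw [e, neg_one_mul, mul_neg]
      exact neg_le_neg lb
  unfold genusH
  rw [Finset.mul_sum]
  refine (Finset.sum_le_sum key).trans (le_of_eq ?_)
  unfold ak bk
  simp only [Finset.sum_add_distrib, Finset.sum_sub_distrib, Finset.mul_sum, Finset.sum_mul, Finset.sum_div,
    sub_mul, sub_div, add_div, mul_add, add_mul, mul_sub]

end Pool.Agent.Helper46.EH.PT
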